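import Pool.Agent.Q165.GL.Stm

/-!
# Project GL: S_CUT and S_PAIR
-/

set_option autoImplicit false

namespace Pool.Agent.Q237.GL

open Finset Pool.Agent.Q165.GL

variable {ι : Type}

theorem side_y (V : Views ι) {y x : ι} (h : y ≠ x) (s t : Prop) : side V y x s t y ↔ s := by
  unfold side
  constructor
  · rintro (h1 | h1 | h1)
    · exact h1.2
    · exact absurd h1.1 h
    · exact absurd rfl h1.1
  · intro hs
    exact Or.inl ⟨rfl, hs⟩

theorem side_x (V : Views ι) {y x : ι} (h : y ≠ x) (s t : Prop) : side V y x s t x ↔ t := by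
  unfold side
  constructor
  · rintro (h1 | h1 | h1)
    · exact absurd h1.1.symm h
    · exact h1.2
    · exact absurd rfl h1.2.1
  · intro hs
    exact Or.inr (Or.inl ⟨rfl, hs⟩)

theorem side_o (V : Views ι) {y x z : ι} (h1 : z ≠ y) (h2 : z ≠ x) (s t : Prop) :
    side V y x s t z ↔ 0 < V.chi y x z := by
  unfold side
  constructor
  · rintro (h | h | h)
    · exact absurd h.1 h1
    · exact absurd h.1 h2
    · exact h.2.2
  · intro h
    exact Or.inr (Or.inr ⟨h1, h2, h⟩)

theorem chi_ne (V : Views ι) {y x z : ι} (h : y ≠ x) (h1 : z ≠ y) (h2 : z ≠ x) :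
    V.chi y x z ≠ 0 := by
  unfold Views.chi
  refine mul_ne_zero (mul_ne_zero (V.ha y x h) (V.ha y z h1.symm)) (sub_ne_zero.2 ?_)
  exact (V.hr y x z h h1.symm h2.symm).symm

theorem cnt_eq {α : Type} [Fintype α] (p : α → Prop) [DecidablePred p] :
    cnt p = (univ.filter p).card := by
  unfold cnt
  exact congrArg card (by ext a; simp)

variable [Fintype ι]

open Classical in
theorem gen (V : Views ι) (G : SimpleGraph ι) {y x : ι} (hyx : y ≠ x) (s t : Prop) :
    cnt (fun q : ι => G.Adj y q ∧ q ≠ x ∧ (0 < V.chi y x q ↔ ¬ s)) + sep V G y x +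
      cnt (fun q : ι => G.Adj x q ∧ q ≠ y ∧ (0 < V.chi y x q ↔ ¬ t)) +
      (univ.filter fun q : ι × ι => (q = (y, x) ∨ q = (x, y)) ∧ G.Adj q.1 q.2 ∧
        side V y x s t q.1 ∧ ¬ side V y x s t q.2).card ≤ cut G (side V y x s t) := by
  set f1 : ι → ι × ι := fun q => if s then (y, q) else (q, y) with hf1
  set f2 : ι → ι × ι := fun q => if t then (x, q) else (q, x) with hf2
  have i1 : Function.Injective f1 := by
    intro p q h
    simp only [hf1] at h
    by_cases hs : s
    · rw [if_pos hs, if_pos hs] at h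
      exact (Prod.mk.inj h).2
    · rw [if_neg hs, if_neg hs] at h
      exact (Prod.mk.inj h).1
  have i2 : Function.Injective f2 := by
    intro p q h
    simp only [hf2] at h
    by_cases hs : t
    · rw [if_pos hs, if_pos hs] at h
      exact (Prod.mk.inj h).2
    · rw [if_neg hs, if_neg hs] at h
      exact (Prod.mk.inj h).1
  set A := univ.filter (fun q : ι => G.Adj y q ∧ q ≠ x ∧ (0 < V.chi y x q ↔ ¬ s)) with hA
  set B := univ.filter (fun q : ι => G.Adj x q ∧ q ≠ y ∧ (0 < V.chi y x q ↔ ¬ t)) with hB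
  set S := univ.filter (fun q : ι × ι => G.Adj q.1 q.2 ∧ sepP V y x q.1 q.2) with hS
  set T := univ.filter (fun q : ι × ι => (q = (y, x) ∨ q = (x, y)) ∧ G.Adj q.1 q.2 ∧
        side V y x s t q.1 ∧ ¬ side V y x s t q.2) with hT
  set C := univ.filter (fun q : ι × ι => G.Adj q.1 q.2 ∧
        side V y x s t q.1 ∧ ¬ side V y x s t q.2) with hC
  have e1 : cnt (fun q : ι => G.Adj y q ∧ q ≠ x ∧ (0 < V.chi y x q ↔ ¬ s)) = (A.image f1).card := by
    rw [card_image_of_injective _ i1, hA, cnt_eq]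
  have e2 : cnt (fun q : ι => G.Adj x q ∧ q ≠ y ∧ (0 < V.chi y x q ↔ ¬ t)) = (B.image f2).card := by
    rw [card_image_of_injective _ i2, hB, cnt_eq]
  have e3 : sep V G y x = S.card := by
    unfold sep
    rw [hS, cnt_eq]
  have e4 : cut G (side V y x s t) = C.card := by
    unfold Pool.Agent.Q165.GL.cut
    rw [hC, cnt_eq]
  rw [e1, e2, e3, e4]
  -- description of the images
  have d1 : ∀ q ∈ A.image f1, q.1 ≠ x ∧ q.2 ≠ x ∧ (q.1 = y ∨ q.2 = y) ∧ q ∈ C := by
    intro q hq
    obtain ⟨z, hz, rfl⟩ := mem_image.1 hq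
    rw [hA, mem_filter] at hz
    obtain ⟨-, h1, h2, h3⟩ := hz
    have hzy : z ≠ y := fun h => by rw [h] at h1; exact G.loopless.irrefl _ h1
    simp only [hf1]
    by_cases hs : s
    · rw [if_pos hs]
      refine ⟨hyx, h2, Or.inl rfl, ?_⟩
      rw [hC, mem_filter]
      refine ⟨mem_univ _, h1, (side_y V hyx s t).2 hs, ?_⟩
      rw [side_o V hzy h2, h3]
      exact fun h => h hs
    · rw [if_neg hs]
      refine ⟨h2, hyx, Or.inr rfl, ?_⟩
      rw [hC, mem_filter]
      refine ⟨mem_univ _, h1.symm, ?_, ?_⟩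
      · rw [side_o V hzy h2, h3]
        exact hs
      · rw [side_y V hyx]
        exact hs
  have d2 : ∀ q ∈ B.image f2, q.1 ≠ y ∧ q.2 ≠ y ∧ (q.1 = x ∨ q.2 = x) ∧ q ∈ C := by
    intro q hq
    obtain ⟨z, hz, rfl⟩ := mem_image.1 hq
    rw [hB, mem_filter] at hz
    obtain ⟨-, h1, h2, h3⟩ := hz
    have hzx : z ≠ x := fun h => by rw [h] at h1; exact G.loopless.irrefl _ h1
    simp only [hf2]
    by_cases hs : t
    · rw [if_pos hs]
      refine ⟨hyx.symm, h2, Or.inl rfl, ?_⟩
      rw [hC, mem_filter]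
      refine ⟨mem_univ _, h1, (side_x V hyx s t).2 hs, ?_⟩
      rw [side_o V h2 hzx, h3]
      exact fun h => h hs
    · rw [if_neg hs]
      refine ⟨h2, hyx.symm, Or.inr rfl, ?_⟩
      rw [hC, mem_filter]
      refine ⟨mem_univ _, h1.symm, ?_, ?_⟩
      · rw [side_o V h2 hzx, h3]
        exact hs
      · rw [side_x V hyx]
        exact hs
  have d3 : ∀ q ∈ S, q.1 ≠ y ∧ q.1 ≠ x ∧ q.2 ≠ y ∧ q.2 ≠ x ∧ q ∈ C := by
    intro q hq
    rw [hS, mem_filter] at hq
    obtain ⟨-, h0, h1, h2, h3, h4, h5, h6⟩ := hq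
    refine ⟨h1, h2, h3, h4, ?_⟩
    rw [hC, mem_filter]
    refine ⟨mem_univ _, h0, (side_o V h1 h2 s t).2 h5, ?_⟩
    rw [side_o V h3 h4]
    exact not_lt.2 h6.le
  have d4 : ∀ q ∈ T, (q = (y, x) ∨ q = (x, y)) ∧ q ∈ C := by
    intro q hq
    rw [hT, mem_filter] at hq
    refine ⟨hq.2.1, ?_⟩
    rw [hC, mem_filter]
    exact ⟨mem_univ _, hq.2.2⟩
  have j1 : Disjoint (A.image f1) S := by
    rw [disjoint_left]
    intro q h1 h2
    have k1 := d1 q h1
    have k2 := d3 q h2
    rcases k1.2.2.1 with h | h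
    · exact k2.1 h
    · exact k2.2.2.1 h
  have j2 : Disjoint (A.image f1 ∪ S) (B.image f2) := by
    rw [disjoint_left]
    intro q h1 h2
    have k2 := d2 q h2
    rcases mem_union.1 h1 with h | h
    · have k1 := d1 q h
      rcases k2.2.2.1 with h | h
      · exact k1.1 h
      · exact k1.2.1 h
    · have k1 := d3 q h
      rcases k2.2.2.1 with h | h
      · exact k1.2.1 h
      · exact k1.2.2.2.1 h
  have j3 : Disjoint (A.image f1 ∪ S ∪ B.image f2) T := by
    rw [disjoint_left]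
    intro q h1 h2
    have k2 := d4 q h2
    rcases mem_union.1 h1 with h | h
    · rcases mem_union.1 h with h | h
      · have k1 := d1 q h
        rcases k2.1 with h | h
        · exact k1.2.1 (by rw [h])
        · exact k1.1 (by rw [h])
      · have k1 := d3 q h
        rcases k2.1 with h | h
        · exact k1.1 (by rw [h])
        · exact k1.2.1 (by rw [h])
    · have k1 := d2 q h
      rcases k2.1 with h | h
      · exact k1.1 (by rw [h])
      · exact k1.2.1 (by rw [h])
  rw [← card_union_of_disjoint j1, ← card_union_of_disjoint j2, ← card_union_of_disjoint j3]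
  refine card_le_card fun q hq => ?_
  rcases mem_union.1 hq with h | h
  · rcases mem_union.1 h with h | h
    · rcases mem_union.1 h with h | h
      · exact (d1 q h).2.2.2
      · exact (d3 q h).2.2.2.2
    · exact (d2 q h).2.2.2
  · exact (d4 q h).2

theorem cnt_congr {α : Type} [Fintype α] {p q : α → Prop} (h : ∀ a, p a ↔ q a) :
    cnt p = cnt q := by
  have : p = q := funext fun a => propext (h a)
  rw [this]

theorem cnt_split {α : Type} [Fintype α] (p q : α → Prop) :
    cnt p = cnt (fun a => p a ∧ q a) + cnt (fun a => p a ∧ ¬ q a) := by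
  classical
  rw [cnt_eq, cnt_eq, cnt_eq,
    ← card_filter_add_card_filter_not (s := univ.filter p) (p := q), filter_filter, filter_filter]

theorem chi_eq (V : Views ι) (y x z : ι) :
    V.chi y x z = V.a y x * (V.a y z * (V.r y z - V.r y x)) := by
  unfold Views.chi
  ring

theorem ns_pos (V : Views ι) {y x : ι} (ha : 0 < V.a y x) (z : ι) :
    ns V y x z ↔ 0 < V.chi y x z := by
  unfold ns
  rw [chi_eq]
  constructor
  · intro h
    exact mul_pos ha h
  · intro h
    exact (pos_iff_pos_of_mul_pos h).1 ha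

theorem ns_neg (V : Views ι) {y x : ι} (hyx : y ≠ x) (ha : V.a y x < 0) {z : ι} (h1 : z ≠ y)
    (h2 : z ≠ x) : ns V y x z ↔ ¬ 0 < V.chi y x z := by
  have h4 := chi_ne V hyx h1 h2
  unfold ns
  rw [chi_eq] at h4 ⊢
  constructor
  · intro h h5
    exact absurd (mul_neg_of_neg_of_pos ha h) (not_lt.2 h5.le)
  · intro h
    have h5 : V.a y x * (V.a y z * (V.r y z - V.r y x)) < 0 := lt_of_le_of_ne (not_lt.1 h) h4
    exact (neg_iff_pos_of_mul_neg h5).1 ha

theorem cut : S_CUT := by
  classical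
  intro ι _ V G c hB y x hyx σ τ
  have hsep : nea V G y x + far V G y x = sep V G y x := by
    unfold nea far sep
    rw [cnt_split (fun q : ι × ι => G.Adj q.1 q.2 ∧ sepP V y x q.1 q.2)
      (fun q => near G y q.1 q.2)]
    congr 1
    · exact cnt_congr fun q => by tauto
    · exact cnt_congr fun q => by tauto
  have main : ∀ s t : Prop,
      (∀ q, q ≠ y → q ≠ x → ((ns V y x q ↔ σ) ↔ (0 < V.chi y x q ↔ ¬ s))) →
      (∀ q, q ≠ y → q ≠ x → ((ns V y x q ↔ τ) ↔ (0 < V.chi y x q ↔ ¬ t))) →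
      nearN V G y x σ + far V G y x + cnt (fun q : ι => G.Adj x q ∧ q ≠ y ∧ (ns V y x q ↔ τ)) ≤ c := by
    intro s t h1 h2
    have g := gen V G hyx s t
    have g2 := hB y x hyx s t
    have e1 : cnt (fun q : ι => G.Adj y q ∧ q ≠ x ∧ (ns V y x q ↔ σ)) =
        cnt (fun q : ι => G.Adj y q ∧ q ≠ x ∧ (0 < V.chi y x q ↔ ¬ s)) := by
      refine cnt_congr fun q => ?_
      constructor
      · rintro ⟨k1, k2, k3⟩
        exact ⟨k1, k2, (h1 q (fun h => by rw [h] at k1; exact G.loopless.irrefl _ k1) k2).1 k3⟩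
      · rintro ⟨k1, k2, k3⟩
        exact ⟨k1, k2, (h1 q (fun h => by rw [h] at k1; exact G.loopless.irrefl _ k1) k2).2 k3⟩
    have e2 : cnt (fun q : ι => G.Adj x q ∧ q ≠ y ∧ (ns V y x q ↔ τ)) =
        cnt (fun q : ι => G.Adj x q ∧ q ≠ y ∧ (0 < V.chi y x q ↔ ¬ t)) := by
      refine cnt_congr fun q => ?_
      constructor
      · rintro ⟨k1, k2, k3⟩
        exact ⟨k1, k2, (h2 q k2 (fun h => by rw [h] at k1; exact G.loopless.irrefl _ k1)).1 k3⟩
      · rintro ⟨k1, k2, k3⟩
        exact ⟨k1, k2, (h2 q k2 (fun h => by rw [h] at k1; exact G.loopless.irrefl _ k1)).2 k3⟩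
    unfold nearN
    rw [e1, e2]
    omega
  rcases lt_or_gt_of_ne (V.ha y x hyx) with ha | ha
  · refine main σ τ ?_ ?_
    · intro q h1 h2
      rw [ns_neg V hyx ha h1 h2]
      tauto
    · intro q h1 h2
      rw [ns_neg V hyx ha h1 h2]
      tauto
  · refine main (¬ σ) (¬ τ) ?_ ?_
    · intro q h1 h2
      rw [ns_pos V ha]
      tauto
    · intro q h1 h2
      rw [ns_pos V ha]
      tauto

theorem pair : S_PAIR := by
  classical
  intro ι _ V G c hB y x hyx
  have g1 := gen V G hyx True False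
  have g2 := gen V G hyx False True
  have b1 := hB y x hyx True False
  have b2 := hB y x hyx False True
  have t1 : (if G.Adj y x then 1 else 0) ≤
      (univ.filter fun q : ι × ι => (q = (y, x) ∨ q = (x, y)) ∧ G.Adj q.1 q.2 ∧
        side V y x True False q.1 ∧ ¬ side V y x True False q.2).card := by
    split_ifs with h
    · refine card_pos.2 ⟨(y, x), ?_⟩
      rw [mem_filter]
      refine ⟨mem_univ _, Or.inl rfl, h, (side_y V hyx _ _).2 trivial, ?_⟩
      rw [side_x V hyx]
      exact fun h => h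
    · exact Nat.zero_le _
  have t2 : (if G.Adj y x then 1 else 0) ≤
      (univ.filter fun q : ι × ι => (q = (y, x) ∨ q = (x, y)) ∧ G.Adj q.1 q.2 ∧
        side V y x False True q.1 ∧ ¬ side V y x False True q.2).card := by
    split_ifs with h
    · refine card_pos.2 ⟨(x, y), ?_⟩
      rw [mem_filter]
      refine ⟨mem_univ _, Or.inr rfl, h.symm, (side_x V hyx _ _).2 trivial, ?_⟩
      rw [side_y V hyx]
      exact fun h => h
    · exact Nat.zero_le _
  have hone : ∀ (p : Prop) [Decidable p] (z : ι), cnt (fun q : ι => p ∧ q = z) = if p then 1 else 0 := by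
    intro p _ z
    rw [cnt_eq]
    split_ifs with h
    · have : (univ.filter fun q : ι => p ∧ q = z) = {z} := by
        ext q
        simp [h]
      rw [this, card_singleton]
    · have : (univ.filter fun q : ι => p ∧ q = z) = ∅ := by
        ext q
        simp [h]
      rw [this, card_empty]
  have d1 : deg G y = cnt (fun q : ι => G.Adj y q ∧ q ≠ x ∧ (0 < V.chi y x q ↔ ¬ True)) +
      cnt (fun q : ι => G.Adj y q ∧ q ≠ x ∧ (0 < V.chi y x q ↔ ¬ False)) +
      (if G.Adj y x then 1 else 0) := by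
    unfold deg
    rw [cnt_split (fun q : ι => G.Adj y q) (fun q => q = x),
      cnt_split (fun q : ι => G.Adj y q ∧ ¬ q = x) (fun q => 0 < V.chi y x q), ← hone (G.Adj y x) x]
    have e1 : cnt (fun q : ι => G.Adj y q ∧ q = x) = cnt (fun q : ι => G.Adj y x ∧ q = x) :=
      cnt_congr fun q => by
        constructor
        · rintro ⟨k1, k2⟩
          rw [k2] at k1
          exact ⟨k1, k2⟩
        · rintro ⟨k1, k2⟩
          rw [k2]
          exact ⟨k1, rfl⟩
    have e2 : cnt (fun q : ι => (G.Adj y q ∧ ¬ q = x) ∧ 0 < V.chi y x q) =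
        cnt (fun q : ι => G.Adj y q ∧ q ≠ x ∧ (0 < V.chi y x q ↔ ¬ False)) :=
      cnt_congr fun q => by tauto
    have e3 : cnt (fun q : ι => (G.Adj y q ∧ ¬ q = x) ∧ ¬ 0 < V.chi y x q) =
        cnt (fun q : ι => G.Adj y q ∧ q ≠ x ∧ (0 < V.chi y x q ↔ ¬ True)) :=
      cnt_congr fun q => by tauto
    rw [e1, e2, e3]
    omega
  have d2 : deg G x = cnt (fun q : ι => G.Adj x q ∧ q ≠ y ∧ (0 < V.chi y x q ↔ ¬ True)) +
      cnt (fun q : ι => G.Adj x q ∧ q ≠ y ∧ (0 < V.chi y x q ↔ ¬ False)) +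
      (if G.Adj y x then 1 else 0) := by
    unfold deg
    rw [cnt_split (fun q : ι => G.Adj x q) (fun q => q = y),
      cnt_split (fun q : ι => G.Adj x q ∧ ¬ q = y) (fun q => 0 < V.chi y x q), ← hone (G.Adj y x) y]
    have e1 : cnt (fun q : ι => G.Adj x q ∧ q = y) = cnt (fun q : ι => G.Adj y x ∧ q = y) :=
      cnt_congr fun q => by
        constructor
        · rintro ⟨k1, k2⟩
          rw [k2] at k1
          exact ⟨k1.symm, k2⟩
        · rintro ⟨k1, k2⟩
          rw [k2]
          exact ⟨k1.symm, rfl⟩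
    have e2 : cnt (fun q : ι => (G.Adj x q ∧ ¬ q = y) ∧ 0 < V.chi y x q) =
        cnt (fun q : ι => G.Adj x q ∧ q ≠ y ∧ (0 < V.chi y x q ↔ ¬ False)) :=
      cnt_congr fun q => by tauto
    have e3 : cnt (fun q : ι => (G.Adj x q ∧ ¬ q = y) ∧ ¬ 0 < V.chi y x q) =
        cnt (fun q : ι => G.Adj x q ∧ q ≠ y ∧ (0 < V.chi y x q ↔ ¬ True)) :=
      cnt_congr fun q => by tauto
    rw [e1, e2, e3]
    omega
  omega

end Pool.Agent.Q237.GL
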